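import Pool.Agent.N718.PC.Main

/-!
The Liouville and the Moebius function at the values of almost all polynomials of degree at most `d` and height at
most `H`, up to the length `H / (log H) ^ B` for EVERY degree `d`.

Method: second moment over the box of coefficients of the sum over `n ≡ r (mod q)`, expanded in the two coefficients
`c_0` and `c_d` by Fourier analysis in the value `f(n)`. The minor arcs are treated by an inverse theorem (few
frequencies are near rationals with denominator up to a power of the logarithm at many of the points `n ^ d`-dilates),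
on the major arcs the averages over the window are evaluated by Weyl sums in `n`, and the exponential sum of `λ` by
Davenport's bound. The rest is a geometric grid of lengths and a union bound over the residue classes.
-/

set_option autoImplicit false

namespace Pool.Agent.Results.MP_892e4c_nt.AllPolynomialsOfHeight

open Finset Polynomial

/-- the Liouville function on the integers: `(-1)^Ω(|m|)` for `m ≠ 0`, and `0` at `0` -/
noncomputable def lam (m : ℤ) : ℤ := if m = 0 then 0 else (-1) ^ ArithmeticFunction.cardFactors m.natAbs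

/-- the Moebius function at `|m|`, and `0` at `0` -/
noncomputable def mu (m : ℤ) : ℤ := ArithmeticFunction.moebius m.natAbs

/-- the polynomial `c_0 + c_1 X + ... + c_d X ^ d` -/
noncomputable def pol {d : ℕ} (c : Fin (d + 1) → ℤ) : ℤ[X] := ∑ i : Fin (d + 1), C (c i) * X ^ (i : ℕ)

/-- the coefficients of all polynomials of degree at most `d` and height at most `H`: `|c_i| ≤ H` for `0 ≤ i ≤ d` -/
noncomputable def box (d H : ℕ) : Finset (Fin (d + 1) → ℤ) := Fintype.piFinset (fun _ => Icc (-(H : ℤ)) H)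

open Pool.Agent.N718.PC Pool.Agent.H373R2.T7 Pool.Agent.H300R2.BH

lemma hz_liR (m : ℤ) : hz liR m = (((lam m : ℤ) : ℝ) : ℂ) := by
  unfold hz Pool.Agent.H300R2.BH.fz liR lam
  rcases lt_trichotomy m 0 with h | h | h
  · rw [if_neg (by omega), if_pos (by omega), if_neg (by omega), show m.natAbs = (-m).toNat by omega]
    push_cast
    ring
  · subst h
    simp
  · rw [if_pos (by omega), if_neg (by omega), if_neg (by omega), show m.natAbs = m.toNat by omega]
    push_cast
    ring

lemma hz_muC (m : ℤ) : hz muC m = (((mu m : ℤ) : ℝ) : ℂ) := by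
  unfold hz Pool.Agent.H300R2.BH.fz muC mu
  rcases lt_trichotomy m 0 with h | h | h
  · rw [if_neg (by omega), if_pos (by omega), show m.natAbs = (-m).toNat by omega]
    push_cast
    ring
  · subst h
    simp
  · rw [if_pos (by omega), if_neg (by omega), show m.natAbs = m.toNat by omega]
    push_cast
    ring

/-- **Chowla's conjecture for almost all polynomials of height at most `H`, up to the length `H / (log H)^B`.** Let
`d ≥ 1`, `ε > 0` and `W` be given. There are `B` and `H₀` such that for all `H ≥ H₀` all polynomials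
`f = c_0 + ... + c_d X^d` with integer coefficients `|c_i| ≤ H`, with at most a proportion `(log H)^(-W)` of exceptions,
have the following property. For all `0 ≤ u ≤ v` with `H^ε ≤ v ≤ H / (log H)^B`, for all `1 ≤ q ≤ (log H)^W` and all `r`
the sums of `λ(f(n))` and of `μ(|f(n)|)` over the `u < n ≤ v` with `n ≡ r` modulo `q` (that is, `n % q = r`)
are at most `v / (log H)^W` in absolute value. -/
theorem result (d : ℕ) (hd : 1 ≤ d) (ε : ℝ) (hε : 0 < ε) (W : ℕ) : ∃ B H₀ : ℕ, ∀ H : ℕ, H₀ ≤ H →
    ∃ Bad ⊆ box d H, (#Bad : ℝ) ≤ #(box d H) / Real.log H ^ W ∧ ∀ c ∈ box d H, c ∉ Bad →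
      ∀ u v : ℕ, u ≤ v → (H : ℝ) ^ ε ≤ v → (v : ℝ) * Real.log H ^ B ≤ H →
        ∀ q r : ℕ, 1 ≤ q → (q : ℝ) ≤ Real.log H ^ W →
          |∑ n ∈ (Ioc u v).filter (fun n : ℕ => n % q = r), (lam ((pol c).eval (n : ℤ)) : ℝ)| ≤ v / Real.log H ^ W ∧
          |∑ n ∈ (Ioc u v).filter (fun n : ℕ => n % q = r), (mu ((pol c).eval (n : ℤ)) : ℝ)| ≤ v / Real.log H ^ W := by
  classical
  obtain ⟨B1, x1, h1⟩ := exc_full liR_norm Pool.Agent.H373R2.T7.sup_liou d hd ε hε (W + 1) W
  obtain ⟨B2, x2, h2⟩ := exc_full muC_norm sup_muC d hd ε hε (W + 1) W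
  obtain ⟨x3, h3⟩ := Filter.eventually_atTop.mp (Pool.Agent.H442R2.EHI.evt_log_ge 2)
  refine ⟨max B1 B2, max (max x1 x2) x3, fun H hH => ?_⟩
  have hH1 : x1 ≤ H := le_trans (le_trans (le_max_left _ _) (le_max_left _ _)) hH
  have hH2 : x2 ≤ H := le_trans (le_trans (le_max_right _ _) (le_max_left _ _)) hH
  have hL : 2 ≤ Real.log H := h3 H (le_trans (le_max_right _ _) hH)
  obtain ⟨Bad1, a1, a2, a3⟩ := h1 H hH1
  obtain ⟨Bad2, b1, b2, b3⟩ := h2 H hH2
  have hL1 : 1 ≤ Real.log H := by linarith
  have hL0 : 0 < Real.log H := by linarith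
  have key : ∀ (h : ℕ → ℂ) (g : ℤ → ℤ) (B : ℕ), (∀ m, hz h m = (((g m : ℤ) : ℝ) : ℂ)) → B ≤ max B1 B2 → ∀ F : ℤ[X],
      GoodL h ε (W + 1) B H W F → ∀ u v : ℕ, u ≤ v → (H : ℝ) ^ ε ≤ v → (v : ℝ) * Real.log H ^ (max B1 B2) ≤ H →
        ∀ q r : ℕ, 1 ≤ q → (q : ℝ) ≤ Real.log H ^ W →
          |∑ n ∈ (Ioc u v).filter (fun n : ℕ => n % q = r), (g (F.eval (n : ℤ)) : ℝ)| ≤ v / Real.log H ^ W := by
    intro h g B hg hB F hF u v c1 c2 c3 q r c4 c5
    have c6 : (v : ℝ) * Real.log H ^ B ≤ H := by
      refine le_trans ?_ c3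
      exact mul_le_mul_of_nonneg_left (pow_le_pow_right₀ hL1 hB) (Nat.cast_nonneg _)
    have c7 := hF u v c1 c2 c6 q r c4 c5
    simp only [hg] at c7
    rw [← Complex.ofReal_sum, Complex.norm_real, Real.norm_eq_abs] at c7
    refine c7.trans ?_
    apply div_le_div_of_nonneg_left (Nat.cast_nonneg _) (by positivity)
    exact pow_le_pow_right₀ hL1 (by omega)
  refine ⟨Bad1 ∪ Bad2, union_subset a1 b1, ?_, ?_⟩
  · have e1 : ((Bad1 ∪ Bad2).card : ℝ) ≤ Bad1.card + Bad2.card := by exact_mod_cast card_union_le Bad1 Bad2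
    have e2 : ((fbox d H).card : ℝ) / Real.log H ^ (W + 1) + (fbox d H).card / Real.log H ^ (W + 1) =
        ((fbox d H).card : ℝ) / Real.log H ^ W * (2 / Real.log H) := by
      rw [pow_succ]
      field_simp
      ring
    have e3 : ((fbox d H).card : ℝ) / Real.log H ^ W * (2 / Real.log H) ≤ (fbox d H).card / Real.log H ^ W := by
      apply mul_le_of_le_one_right (by positivity)
      rw [div_le_one hL0]
      exact hL
    have e4 : ((box d H).card : ℝ) = (fbox d H).card := rfl
    rw [e4]
    linarith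
  · intro c hc hcB u v c1 c2 c3 q r c4 c5
    rw [mem_union, not_or] at hcB
    exact ⟨key liR lam B1 hz_liR (le_max_left _ _) (pol c) (a3 c hc hcB.1) u v c1 c2 c3 q r c4 c5,
      key muC mu B2 hz_muC (le_max_right _ _) (pol c) (b3 c hc hcB.2) u v c1 c2 c3 q r c4 c5⟩

end Pool.Agent.Results.MP_892e4c_nt.AllPolynomialsOfHeight
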