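import Pool.Agent.N193.PS.Near
import Pool.Agent.N193.PS.Tup
import Pool.Agent.N625.DY.N

/-!
# The Liouville function at products of linear factors whose constant terms are near values of functions of non-integral index

From Mathlib: `ContDiffAt ℝ ⊤`: infinitely differentiable at a point; `iteratedDeriv m f`: the derivative of order `m`;
`⌊y⌋₊`: the integer part of `y`, and `0` for `y < 0`.

Method: the characteristic function of the integer part of `f n` is small at all frequencies which are not close to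
integers (van der Corput differencing and the inequality of Kusmin and Landau on dyadic blocks for all orders of
differencing, a discrete Fejer kernel for the passage to integer parts), and the values are not concentrated on short
intervals. The passage from such exponential sums to correlations is from the starting files (`Pool.Agent.W93.AU`,
`Pool.Agent.R459.LawNear`), in a generic form from `Pool.Agent.N625.DY` (helper625); the elementary lemmas on `prodPoly` are
those of helper213 in `RandomFieldConstants`.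
-/

set_option autoImplicit false

namespace Pool.Agent.Results.MP_892e4c_nt.NonIntegralOrderConstants

open Finset Filter

/-- `f` is smoothly varying of index `c`: it is infinitely differentiable and positive for large arguments, and
`t ^ m f⁽ᵐ⁾(t) / f(t) → c (c - 1) ... (c - m + 1)` for every `m`. -/
def SmoothlyVarying (c : ℝ) (f : ℝ → ℝ) : Prop :=
  (∃ t₀ : ℝ, ∀ t > t₀, ContDiffAt ℝ ((⊤ : ℕ∞) : WithTop ℕ∞) f t ∧ 0 < f t) ∧
  ∀ m : ℕ, Tendsto (fun t => t ^ m * iteratedDeriv m f t / f t) atTop (nhds (∏ i ∈ range m, (c - i)))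

/-- The Liouville function on the integers, `λ(-m) = λ(m)` and `λ(0) = 0`. -/
def lam (m : ℤ) : ℤ := if m = 0 then 0 else (-1) ^ ArithmeticFunction.cardFactors m.natAbs

/-- The product of the polynomial `g` and of the linear polynomials `α i X + h i`, `i ∈ I`. -/
noncomputable def prodPoly {s : ℕ} (g : Polynomial ℤ) (α : Fin s → ℕ) (h : Fin s → ℤ) (I : Finset (Fin s)) : Polynomial ℤ :=
  g * ∏ i ∈ I, (Polynomial.C (α i : ℤ) * Polynomial.X + Polynomial.C (h i))

/-- The sum of `θ(m) λ(F(m))`, where `F` is the product of `g` and of the `α i X + h i`, `i ∈ I`, over the `1 ≤ m ≤ x` for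
which all the `α i m + h i`, `i ∈ I`, are positive. -/
noncomputable def lamSum {s : ℕ} (θ : ℕ → ℂ) (g : Polynomial ℤ) (α : Fin s → ℕ) (h : Fin s → ℤ) (I : Finset (Fin s))
    (x : ℕ) : ℂ :=
  ∑ m ∈ (Icc 1 x).filter (fun m : ℕ => ∀ i ∈ I, 0 < (α i : ℤ) * m + h i), θ m * (lam ((prodPoly g α h I).eval (m : ℤ)) : ℂ)

/-- For all the vectors `h` of integers with `|h i - y i| ≤ (log N) ^ W`, all nonempty sets `I` of indices, all `l`, and all
`x` with `α i * x ≤ B N` for `i ∈ I`: `|∑ m ≤ x, θ l m * λ(F(m))| ≤ N / (log N) ^ U`, where `F` is the product of `g l` and of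
the `α i X + h i`, `i ∈ I`. -/
def Small (B U W N : ℕ) {s L : ℕ} (g : Fin L → Polynomial ℤ) (θ : Fin L → ℕ → ℂ) (α : Fin s → ℕ) (y : Fin s → ℤ) : Prop :=
  ∀ h : Fin s → ℤ, (∀ i, ((|h i - y i| : ℤ) : ℝ) ≤ Real.log N ^ W) → ∀ I : Finset (Fin s), I.Nonempty → ∀ l, ∀ x : ℕ,
    (∀ i ∈ I, α i * x ≤ B * N) → ‖lamSum (θ l) (g l) α h I x‖ ≤ N / Real.log N ^ U

lemma lam_mul (m n : ℤ) : lam (m * n) = lam m * lam n := by
  unfold lam
  by_cases hm : m = 0
  · simp [hm]
  · by_cases hn : n = 0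
    · simp [hn]
    · rw [if_neg (mul_ne_zero hm hn), if_neg hm, if_neg hn, Int.natAbs_mul,
        ArithmeticFunction.cardFactors_mul (Int.natAbs_ne_zero.2 hm) (Int.natAbs_ne_zero.2 hn), pow_add]

lemma lam_one : lam 1 = 1 := by
  unfold lam
  simp

lemma lam_prod {ι : Type} (I : Finset ι) (g : ι → ℤ) : lam (∏ i ∈ I, g i) = ∏ i ∈ I, lam (g i) := by
  classical
  induction I using Finset.induction_on with
  | empty => simp [lam_one]
  | insert a I ha ih => rw [prod_insert ha, prod_insert ha, lam_mul, ih]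

lemma lam_pos (m : ℤ) (hm : 0 < m) : Pool.Agent.R459.Shift.lam m = lam m := by
  unfold Pool.Agent.R459.Shift.lam lam
  rw [if_pos (by omega), if_neg (by omega)]
  have : m.toNat = m.natAbs := by omega
  rw [this]

lemma norm_lam_le (m : ℤ) : ‖(lam m : ℂ)‖ ≤ 1 := by
  unfold lam
  split_ifs
  · simp
  · push_cast
    rw [norm_pow]
    simp

lemma sum_eq {s : ℕ} (θ : ℕ → ℂ) (g : Polynomial ℤ) (α : Fin s → ℕ) (h : Fin s → ℤ) (I : Finset (Fin s)) (x : ℕ) :
    lamSum θ g α h I x = ∑ n ∈ Icc 1 x, (θ n * (lam (g.eval (n : ℤ)) : ℂ)) *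
      ∏ i ∈ I, (Pool.Agent.R459.Shift.lam (α i * n + h i) : ℂ) := by
  unfold lamSum
  rw [sum_filter]
  apply sum_congr rfl
  intro n _
  split_ifs with hn
  · have e1 : (prodPoly g α h I).eval (n : ℤ) = g.eval (n : ℤ) * ∏ i ∈ I, ((α i : ℤ) * n + h i) := by
      unfold prodPoly
      rw [Polynomial.eval_mul, Polynomial.eval_prod]
      congr 1
      apply prod_congr rfl
      intro i _
      simp
    rw [e1, lam_mul, lam_prod]
    push_cast
    rw [mul_assoc]
    congr 2
    apply prod_congr rfl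
    intro i hi
    rw [lam_pos _ (hn i hi)]
  · push Not at hn
    obtain ⟨i, hi, hle⟩ := hn
    have e1 : Pool.Agent.R459.Shift.lam (α i * n + h i) = 0 := by
      unfold Pool.Agent.R459.Shift.lam
      rw [if_neg (by omega)]
    have e2 : ∏ i ∈ I, (Pool.Agent.R459.Shift.lam (α i * n + h i) : ℂ) = 0 := by
      apply prod_eq_zero hi
      rw [e1]
      simp
    rw [e2, mul_zero]

open Pool.Agent.N193.PS

open Classical in
/-- **(1)** Let `f i`, `i < s`, be smoothly varying of indices `c i > 0` which are not integers, and let `κ i ≠ 0`, `B`, `T`, `W`,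
`U` and `A` be fixed. Let `N` be large, let `x₀ i` be such that `f i n ≤ N` for the integers `1 ≤ n ≤ x₀ i` and
`N ≤ f i (x₀ i) log ^ A N`, and let `|c₀ i| ≤ B N`. Let `α i ≥ 1` be arbitrary, let `g l` be at most `(log N) ^ T` arbitrary
polynomials with integer coefficients (of any degree), and let `θ l` be arbitrary functions bounded by `1` (e.g. `1`, or
additive characters, or the indicator functions of residue classes). Then all the vectors `n` with `1 ≤ n i ≤ x₀ i`, with at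
most `(∏ x₀ i) / log ^ U N` exceptions, have the following property: for all the vectors `h` of integers with
`|h i - (c₀ i + κ i ⌊f i (n i)⌋)| ≤ (log N) ^ W`, all nonempty sets `I` of indices and all `l`,
`|∑ m ≤ x, θ l m * λ(F(m))| ≤ N / (log N) ^ U` for all `x ≤ B N / max (α i, i ∈ I)`, where `F` is the product of `g l` and of
the `α i X + h i`, `i ∈ I` (the sum is over the `m` for which these linear factors are positive).

**(2)** Part (1) applies to all the functions `f t = ∑ a z t ^ z.1 (log t) ^ z.2` (finite sums) with a leading term `z₀`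
whose coefficient is positive and whose exponent `c = z₀.1` is positive and not an integer; for example to `n ^ c`. -/
theorem result :
    (∀ (s : ℕ) (c : Fin s → ℝ) (f : Fin s → ℝ → ℝ), (∀ i, 0 < c i) → (∀ i, ∀ m : ℕ, c i ≠ m) →
      (∀ i, SmoothlyVarying (c i) (f i)) → ∀ (κ : Fin s → ℤ), (∀ i, κ i ≠ 0) → ∀ (B T W U A : ℕ), ∃ N₀ : ℕ, ∀ N : ℕ, N₀ ≤ N →
      ∀ x₀ : Fin s → ℕ, (∀ i, ∀ n ∈ Icc 1 (x₀ i), f i n ≤ N) → (∀ i, (N : ℝ) ≤ Real.log N ^ A * f i (x₀ i)) →
      ∀ c₀ : Fin s → ℤ, (∀ i, |c₀ i| ≤ B * N) →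
      ∀ L : ℕ, (L : ℝ) ≤ Real.log N ^ T → ∀ (α : Fin s → ℕ) (g : Fin L → Polynomial ℤ) (θ : Fin L → ℕ → ℂ),
      (∀ i, 1 ≤ α i) → (∀ l n, ‖θ l n‖ ≤ 1) →
        (((Fintype.piFinset fun i => Icc 1 (x₀ i)).filter fun n =>
          ¬ Small B U W N g θ α (fun i => c₀ i + κ i * (⌊f i (n i)⌋₊ : ℕ))).card : ℝ) ≤
          (∏ i, (x₀ i : ℝ)) / Real.log N ^ U) ∧
    (∀ (F : Finset (ℝ × ℝ)) (a : ℝ × ℝ → ℝ) (z₀ : ℝ × ℝ), z₀ ∈ F → 0 < a z₀ →
      (∀ z ∈ F, z ≠ z₀ → z.1 < z₀.1 ∨ z.1 = z₀.1 ∧ z.2 < z₀.2) →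
      SmoothlyVarying z₀.1 (fun t => ∑ z ∈ F, a z * t ^ z.1 * Real.log t ^ z.2)) := by
  refine ⟨fun s c f hc hn hf κ hκ B T W U A => ?_, fun F a z₀ h1 h2 h3 => gp_sv F a z₀ h1 h2 h3⟩
  have hsv := fun i => sv_of (c i) (hc i) (hn i) (f i) (hf i)
  obtain ⟨k₀, h0⟩ := Pool.Agent.N625.DY.cls_chowla s 2 κ (fun i => FC (fun m => iteratedDeriv m (f i)) (A + 1))
    (fun i => ((hsv i).clsV (A + 1) (κ i) (hκ i)).toCls) B T W (U + 1)
  refine ⟨2 ^ k₀ + 4, fun N hN x₀ hup hlow c₀ hc₀ L hL α g θ hα hθ => ?_⟩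
  have hk2 : 0 < 2 ^ k₀ := by positivity
  have hN4 : 4 ≤ N := by omega
  have hNk : N ≤ 2 ^ dg N := (lt_dg N).le
  have hL1 := log_pos4 N hN4
  have hLk := log_le_dg N (by omega)
  have hL0 : 0 < Real.log N := by linarith
  have hP0 : 0 ≤ ∏ i, (x₀ i : ℝ) := prod_nonneg fun i _ => Nat.cast_nonneg _
  by_cases hx : ∀ i, 1 ≤ x₀ i
  swap
  · push Not at hx
    obtain ⟨i, hi⟩ := hx
    have he : Fintype.piFinset (fun i => Icc 1 (x₀ i)) = ∅ := by
      rw [eq_empty_iff_forall_notMem]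
      intro n hn
      rw [Fintype.mem_piFinset] at hn
      have := mem_Icc.1 (hn i)
      omega
    rw [he, filter_empty, card_empty, Nat.cast_zero]
    positivity
  have hconv := fun i => conv (fun m => iteratedDeriv m (f i)) A N (x₀ i) hN4
    (by simpa only [iteratedDeriv_zero] using hup i) (by simpa only [iteratedDeriv_zero] using hlow i)
  obtain ⟨θ', hθ'⟩ : ∃ θ' : Fin L → ℕ → ℂ, θ' = fun l n => θ l n * (lam ((g l).eval (n : ℤ)) : ℂ) := ⟨_, rfl⟩
  obtain ⟨Qp, hQp⟩ : ∃ Qp : (Fin s → ℕ) → Prop, Qp = fun v =>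
    Pool.Agent.N625.DY.NearT W (dg N) (Pool.Agent.N625.DY.SmallT B (U + 1) (2 ^ dg N) (dg N) α θ')
      (fun i => c₀ i + κ i * (v i : ℕ)) := ⟨_, rfl⟩
  have key := count_vec (fun i m => iteratedDeriv m (f i)) (fun _ => 2 ^ dg N) x₀ hx (fun i => (hconv i).1) Qp
    (1 / (dg N : ℝ) ^ (U + 1)) (by
      have h3 := h0 (dg N) (dg_large k₀ N (by omega))
        (fun i v => (((Icc 1 (x₀ i)).filter (fun n => val (fun m => iteratedDeriv m (f i)) n = v)).card : ℝ) / x₀ i)
        (fun i => ⟨x₀ i, hx i, (hconv i).1, (hconv i).2, fun v => rfl⟩) c₀ (fun i => by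
          refine (hc₀ i).trans (mul_le_mul_of_nonneg_left ?_ (Nat.cast_nonneg _))
          exact_mod_cast hNk) L (hL.trans (pow_le_pow_left₀ hL0.le hLk T)) α θ' hα (fun l n => by
          rw [hθ', norm_mul]
          exact mul_le_one₀ (hθ l n) (norm_nonneg _) (norm_lam_le _))
      refine le_trans (le_of_eq ?_) h3
      refine sum_congr rfl fun v _ => ?_
      rw [hQp]
      by_cases hv : Pool.Agent.N625.DY.NearT W (dg N) (Pool.Agent.N625.DY.SmallT B (U + 1) (2 ^ dg N) (dg N) α θ')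
        (fun i => c₀ i + κ i * (v i : ℕ))
      · rw [if_neg (not_not.2 hv), if_pos hv]
      · rw [if_pos hv, if_neg hv])
  have hsc : (∏ i, (x₀ i : ℝ)) * (1 / (dg N : ℝ) ^ (U + 1)) ≤ (∏ i, (x₀ i : ℝ)) / Real.log N ^ U := by
    rw [div_eq_mul_one_div (∏ i, (x₀ i : ℝ)) (Real.log N ^ U)]
    apply mul_le_mul_of_nonneg_left _ hP0
    apply one_div_le_one_div_of_le (by positivity)
    have hd1 : (1 : ℝ) ≤ dg N := hL1.trans hLk
    exact (pow_le_pow_left₀ hL0.le hLk U).trans (pow_le_pow_right₀ hd1 (by omega))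
  refine le_trans ?_ (key.trans hsc)
  apply Nat.cast_le.2
  apply card_le_card
  intro n hn'
  rw [mem_filter] at hn' ⊢
  refine ⟨hn'.1, fun hcon => hn'.2 ?_⟩
  intro h hh I hI l x hxI
  rw [hQp] at hcon
  simp only [val_iter] at hcon
  have h4 : ∀ i, |h i - (c₀ i + κ i * (⌊f i (n i)⌋₊ : ℕ))| ≤ ((dg N : ℕ) : ℤ) ^ W := by
    intro i
    have h3 : ((|h i - (c₀ i + κ i * (⌊f i (n i)⌋₊ : ℕ))| : ℤ) : ℝ) ≤ ((((dg N : ℕ) : ℤ) ^ W : ℤ) : ℝ) := by
      refine (hh i).trans ?_
      push_cast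
      exact pow_le_pow_left₀ hL0.le hLk W
    exact_mod_cast h3
  have h5 := hcon h h4 I hI l x (fun i hi => (hxI i hi).trans (Nat.mul_le_mul_left _ hNk))
  rw [sum_eq]
  rw [hθ'] at h5
  exact h5.trans (scale N U hN4)

end Pool.Agent.Results.MP_892e4c_nt.NonIntegralOrderConstants
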