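import Pool.Agent.N728.QU.AllLT

set_option autoImplicit false

/-!
# Chowla's conjecture in thin families of constant terms

Let `f(X) = a X² + b X` with integers `a ≠ 0` and `b`. For every integer `c ≠ 0` and almost all positive integers `h`
the polynomial `f(X) + c - f(h)` satisfies the estimate of Chowla's conjecture on all the intervals `[1, M]` with `M` at
most a multiple of `h`: for every `ε > 0` and `K`, all large `H` and all integers `c ≠ 0` with `|c| ≤ K H²`,

`|∑_{m ≤ M} λ(f(m) + c - f(h))| ≤ ε H` for all `M ≤ K H`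

for all but at most `ε H` of the `h ≤ H`. The constant terms `c - f(h)` form a thin set (about `H` of the numbers of
size `H²`); for example `f(X) = X²` and `c = 1` give the polynomials `X² + 1 - h²`.

Proof (`Agent/N728/QL`, `Agent/N728/QG`, `Agent/N728/QU`): `f(m) - f(h) = (m - h) (a (m + h) + b) = u (a u + 2 a h + b)`
with `u = m - h`, so the question is one about the polynomials `a u² + (2 a h + b) u + c` with variable linear
coefficient, and the case of constant `G` of the theorem about `u (G(u) + b') + c`, uniform in `c`, applies on short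
ranges of `h`.
-/

namespace Pool.Agent.Results.MP_892e4c_nt.ThinFamilyOfConstants

open Finset

/-- The Liouville function of `|n|`; its value at `0` is `0`. -/
noncomputable def liouville (n : ℤ) : ℝ := if n = 0 then 0 else (-1) ^ (ArithmeticFunction.cardFactors n.natAbs)

/-- The polynomial `f(X) = a X² + b X`. -/
def f (a b n : ℤ) : ℤ := a * n ^ 2 + b * n

open Classical in
/-- The number of the integers `1 ≤ h ≤ H` for which one of the sums over `m ≤ M`, `M ≤ K H`, of the Liouville function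
of `f(m) + c - f(h)` exceeds `ε H` in absolute value. -/
noncomputable def exceptions (a b c : ℤ) (K : ℕ) (ε : ℝ) (H : ℕ) : ℕ :=
  ((Icc 1 H).filter (fun h : ℕ => ∃ M : ℕ, M ≤ K * H ∧
    ε * H < |∑ m ∈ Icc 1 M, liouville (f a b m + c - f a b h)|)).card

lemma liouville_neg (n : ℤ) : liouville (-n) = liouville n := by
  unfold liouville
  simp only [neg_eq_zero, Int.natAbs_neg]

lemma exceptions_eq (a b c : ℤ) (K : ℕ) (ε : ℝ) (H : ℕ) :
    exceptions a b c K ε H = exceptions (-a) (-b) (-c) K ε H := by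
  classical
  unfold exceptions
  congr 1
  apply filter_congr
  intro h _
  have h1 : ∀ M : ℕ, ∑ m ∈ Icc 1 M, liouville (f (-a) (-b) m + -c - f (-a) (-b) h) =
      ∑ m ∈ Icc 1 M, liouville (f a b m + c - f a b h) := by
    intro M
    apply sum_congr rfl
    intro m _
    rw [← liouville_neg]
    congr 1
    unfold f
    ring
  simp only [h1]

lemma pos_case (a b : ℤ) (ha : 1 ≤ a) (ε : ℝ) (hε : 0 < ε) (K : ℕ) : ∃ H₀ : ℕ, ∀ H : ℕ, H₀ ≤ H → ∀ c : ℤ, c ≠ 0 →
    c.natAbs ≤ K * H ^ 2 → (exceptions a b c K ε H : ℝ) ≤ ε * H := by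
  classical
  obtain ⟨H0, hF⟩ := Pool.Agent.N728.QU.finalLT a b ha ε K hε
  refine ⟨H0, fun H hH c hc hcK => ?_⟩
  refine le_trans (le_of_eq ?_) (hF H hH c hc hcK)
  unfold exceptions
  norm_cast
  congr 1
  apply filter_congr
  intro h _
  have h1 : ∀ M : ℕ, ∑ m ∈ Icc 1 M, liouville (f a b m + c - f a b h) =
      ∑ m ∈ Icc 1 M, Pool.Agent.N728.QG.lam (Pool.Agent.N728.QU.Vg a b 1 c h m) := by
    intro M
    apply sum_congr rfl
    intro m _
    have e1 : f a b m + c - f a b h = Pool.Agent.N728.QU.Vg a b 1 c h m := by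
      unfold f Pool.Agent.N728.QU.Vg
      ring
    rw [e1]
    rfl
  simp only [h1]

theorem result (a b : ℤ) (ha : a ≠ 0) (ε : ℝ) (hε : 0 < ε) (K : ℕ) : ∃ H₀ : ℕ, ∀ H : ℕ, H₀ ≤ H → ∀ c : ℤ, c ≠ 0 →
    c.natAbs ≤ K * H ^ 2 → (exceptions a b c K ε H : ℝ) ≤ ε * H := by
  rcases lt_or_gt_of_ne ha with h | h
  · obtain ⟨H0, hF⟩ := pos_case (-a) (-b) (by omega) ε hε K
    refine ⟨H0, fun H hH c hc hcK => ?_⟩
    rw [exceptions_eq]
    exact hF H hH (-c) (neg_ne_zero.2 hc) (by rw [Int.natAbs_neg]; exact hcK)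
  · exact pos_case a b (by omega) ε hε K

end Pool.Agent.Results.MP_892e4c_nt.ThinFamilyOfConstants
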